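import Mathlib
import Pool.Agent.R792.ChainBound
import Pool.Agent.R792.Fan
import Pool.Agent.R792.Upper

/-!
Disproof of Q1: attaching a pendant edge at a vertex of a connected graph can change the growth
rate of the maximum running time of graph bootstrap percolation although the running time stays
unbounded. The counterexample is the wheel whose rim has six vertices, with the pendant edge at
the hub: `M_H (5 k + 2) ≥ k`, whereas `M_{H^{u+}} (n)` is of order `log n`.
-/

namespace Pool.Agent.R792.Kept.PendantHub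

open Pool.Agent.R792

theorem unbounded : ¬ Asymptotics.IsBigO Filter.atTop
    (fun n : ℕ => (maxTime wheelP n : ℝ)) (fun _ => (1 : ℝ)) := by
  intro h
  obtain ⟨C, hC⟩ := h.bound
  obtain ⟨N, hN⟩ := Filter.eventually_atTop.mp hC
  obtain ⟨t, ht⟩ := exists_nat_gt C
  have hlow := fan_lower (t + N)
  have hge : N ≤ 5 ^ (t + N) + 10 := by
    have : t + N < 5 ^ (t + N) := Nat.lt_pow_self (by norm_num)
    omega
  have h1 := hN _ hge
  rw [Real.norm_of_nonneg (Nat.cast_nonneg _), norm_one, mul_one] at h1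
  have h2 : ((t + N + 1 : ℕ) : ℝ) ≤ (maxTime wheelP (5 ^ (t + N) + 10) : ℝ) := by
    exact_mod_cast hlow
  push_cast at h2
  have h3 : (0 : ℝ) ≤ N := Nat.cast_nonneg _
  linarith

theorem not_lower (c : ℝ) (hc : 0 < c) : ¬ ∀ᶠ n : ℕ in Filter.atTop,
    c * maxTime wheel6 n ≤ maxTime wheelP n := by
  intro h
  obtain ⟨N, hN⟩ := Filter.eventually_atTop.mp h
  obtain ⟨m, hm⟩ := exists_nat_gt (2 / c)
  -- a large exponent
  let j := m + N + 45
  have hj45 : 45 ≤ j := by omega
  have hjm : m ≤ j := by omega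
  have hpow : j < 5 ^ j := Nat.lt_pow_self (by norm_num)
  have hn : N ≤ 5 * 5 ^ j + 2 := by omega
  have h1 := hN _ hn
  have hlow : ((5 ^ j : ℕ) : ℝ) ≤ (maxTime wheel6 (5 * 5 ^ j + 2) : ℝ) := by
    exact_mod_cast wheel_lower (5 ^ j)
  have hup : maxTime wheelP (5 * 5 ^ j + 2) ≤ j + 2 + 43 := by
    apply pendant_upper
    · omega
    · have : 5 ^ (j + 2) = 25 * 5 ^ j := by ring
      omega
  have hup' : (maxTime wheelP (5 * 5 ^ j + 2) : ℝ) ≤ j + 45 := by
    have : (maxTime wheelP (5 * 5 ^ j + 2) : ℝ) ≤ ((j + 2 + 43 : ℕ) : ℝ) := by exact_mod_cast hup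
    push_cast at this
    linarith
  have hsq : j * j ≤ 5 ^ j := by
    have h2 : j < 2 ^ j := Nat.lt_two_pow_self
    calc j * j ≤ 2 ^ j * 2 ^ j := Nat.mul_le_mul h2.le h2.le
      _ = (2 * 2) ^ j := by rw [← mul_pow]
      _ = 4 ^ j := by norm_num
      _ ≤ 5 ^ j := Nat.pow_le_pow_left (by norm_num) j
  have hsq' : (j : ℝ) * j ≤ ((5 ^ j : ℕ) : ℝ) := by exact_mod_cast hsq
  have hjpos : (0 : ℝ) < j := by
    have : 0 < j := by omega
    exact_mod_cast this
  have hj45' : (45 : ℝ) ≤ j := by exact_mod_cast hj45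
  have h3 : c * ((j : ℝ) * j) ≤ 2 * j := by
    calc c * ((j : ℝ) * j) ≤ c * ((5 ^ j : ℕ) : ℝ) := mul_le_mul_of_nonneg_left hsq' hc.le
      _ ≤ c * (maxTime wheel6 (5 * 5 ^ j + 2) : ℝ) := mul_le_mul_of_nonneg_left hlow hc.le
      _ ≤ (maxTime wheelP (5 * 5 ^ j + 2) : ℝ) := h1
      _ ≤ j + 45 := hup'
      _ ≤ 2 * j := by linarith
  have h4 : c * j ≤ 2 := by
    have : (c * j) * j ≤ 2 * j := by linarith [h3, mul_assoc c (j : ℝ) j]
    exact le_of_mul_le_mul_right this hjpos
  have h5 : 2 < c * j := by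
    have h6 : (m : ℝ) ≤ j := by exact_mod_cast hjm
    have h7 : 2 / c < j := lt_of_lt_of_le hm h6
    rw [div_lt_iff₀ hc] at h7
    linarith
  linarith

/-- The dichotomy of Q1 fails: it is not true that for every finite connected graph `H` and every
vertex `u` either the maximum running time of `H^{u+}` is bounded or it is of the same order as
the maximum running time of `H`. -/
theorem result :
    ¬ ∀ (W : Type) [Fintype W] (H : SimpleGraph W), H.Connected → ∀ u : W,
      Asymptotics.IsBigO Filter.atTop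
        (fun n : ℕ => (maxTime (addPendant H u) n : ℝ)) (fun _ => (1 : ℝ)) ∨
      ∃ c C : ℝ, 0 < c ∧ c ≤ C ∧ ∀ᶠ n : ℕ in Filter.atTop,
        c * (maxTime H n : ℝ) ≤ (maxTime (addPendant H u) n : ℝ) ∧
        (maxTime (addPendant H u) n : ℝ) ≤ C * (maxTime H n : ℝ) := by
  intro h
  rcases h (Option (Fin 6)) wheel6 wheel6_connected none with h1 | ⟨c, C, hc, -, h2⟩
  · exact unbounded h1
  · exact not_lower c hc (h2.mono fun n hn => hn.1)

end Pool.Agent.R792.Kept.PendantHub
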